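import Pool.Agent.helper64.PB.SpecA

set_option autoImplicit false

namespace Pool.Agent.PB

theorem SUB_aux {G : Set Gate} {m n : ℕ} {φ : Fin m → BF n} {l : List (BF n)} (hl : Prog G n l)
    (hφ : ∀ i, Av l (φ i)) {L : List (BF m)} (hL : Prog G m L) :
    ∃ l' : List (BF n), l'.length = L.length ∧ Prog G n (l' ++ l) ∧
      ∀ u ∈ L, (fun x => u fun i => φ i x) ∈ l' ++ l := by
  induction hL with
  | nil => exact ⟨[], rfl, hl, by simp⟩
  | step L g a hL hg ha ih =>
    obtain ⟨l', h1, h2, h3⟩ := ih
    refine ⟨(fun x => g.2 fun i => a i (fun j => φ j x)) :: l', by simp [h1], ?_, ?_⟩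
    · have := Prog.step (l' ++ l) g (fun i => fun x => a i (fun j => φ j x)) h2 hg (fun i => by
        rcases ha i with h | ⟨j, hj⟩
        · exact Or.inl (h3 _ h)
        · rcases hφ j with h | ⟨k, hk⟩
          · left
            have : (fun x => a i (fun j => φ j x)) = φ j := by
              funext x; rw [hj]
            rw [this]
            exact List.mem_append_right _ h
          · right
            refine ⟨k, ?_⟩
            funext x; rw [hj]; simp only [hk])
      exact this
    · intro u hu
      rcases List.mem_cons.1 hu with h | h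
      · subst h
        exact List.mem_append_left _ (List.mem_cons_self)
      · exact List.mem_append.2 ((List.mem_append.1 (h3 u h)).imp (List.mem_cons_of_mem _) id)

theorem SUB : SUB_stmt := by
  intro G m n F s l φ hF hl hφ
  obtain ⟨L, hL, hs, hF⟩ := hF
  obtain ⟨l', h1, h2, h3⟩ := SUB_aux hl hφ hL
  refine ⟨l', h2, h1 ▸ hs, ?_⟩
  rcases hF with hF | ⟨j, hj⟩
  · exact Or.inl (h3 F hF)
  · subst hj
    rcases hφ j with h | ⟨k, hk⟩
    · exact Or.inl (List.mem_append_right _ h)
    · exact Or.inr ⟨k, hk⟩

end Pool.Agent.PB
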